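import Pool.Agent.PRT.Kit

/-!
# KTK (MP_b2962a_an): conservative maps without periodic points have subexponential derivatives

`F : E → E`, `E = ℝ × ℝ` (sup norm), is a smooth lift with `det DF = 1`.  If `F^q z ≠ z + p` for all
`q ≥ 1` and all integer vectors `p`, then for every `ε > 0` there is `C` with
`‖D F^n‖ ≤ C e^(ε n)`.  Every statement has its complete proof in its docstring.
-/

set_option autoImplicit false

namespace Pool.Agent.KTK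

open Pool.Agent.PRT
open scoped ContDiff

/-- subexponential growth of the derivatives -/
def Sub (F : E → E) : Prop :=
  ∀ ε : ℝ, 0 < ε → ∃ C : ℝ, ∀ (n : ℕ) (z : E), ‖fderiv ℝ (F^[n]) z‖ ≤ C * Real.exp (ε * n)

/-- no periodic points -/
def NoPer (F : E → E) : Prop :=
  ∀ (q : ℕ) (a b : ℤ) (z : E), 1 ≤ q → F^[q] z ≠ z + iv a b

/-- smooth lifts of area preserving maps -/
structure Cs (F : E → E) : Prop where
  sm : ContDiff ℝ ∞ F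
  eqv : Eqv F
  det : ∀ z, (fderiv ℝ F z).det = 1

/-- an orbit segment `x 0, .., x N` of `g` with two fields of unit vectors `e`, `f`, which are mapped
to `α i • e (i+1)`, `β i • f (i+1)` -/
structure Sg (g : E → E) (D : ℝ) (N : ℕ) (x e f : ℕ → E) (α β : ℕ → ℝ) : Prop where
  hx : ∀ i < N, x (i + 1) = g (x i)
  e1 : ∀ i ≤ N, ‖e i‖ = 1
  f1 : ∀ i ≤ N, ‖f i‖ = 1
  he : ∀ i < N, fderiv ℝ g (x i) (e i) = α i • e (i + 1)
  hf : ∀ i < N, fderiv ℝ g (x i) (f i) = β i • f (i + 1)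
  a0 : ∀ i < N, 0 < α i
  b0 : ∀ i < N, 0 < β i
  aD : ∀ i < N, Real.log (α i) ≤ D
  bD : ∀ i < N, -D ≤ Real.log (β i)
  c0 : ∀ i ≤ N, cr (e i) (f i) ≠ 0

/-- the defect of the step `i` (it is `≥ 0`, and `0` for maximal expansion of `e` and maximal
contraction of `f`) -/
noncomputable def df (D : ℝ) (α β : ℕ → ℝ) (i : ℕ) : ℝ := 2 * D - Real.log (α i) + Real.log (β i)

/-- minus the logarithm of the angle -/
noncomputable def an (e f : ℕ → E) (i : ℕ) : ℝ := -Real.log |cr (e i) (f i)|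

/-- `j` is a good time of the sequence `s` of length `N`: all forward and all backward means which start
at `j` are at most `σ` -/
def Gt (s : ℕ → ℝ) (σ : ℝ) (N j : ℕ) : Prop :=
  (∀ i, j ≤ i → i ≤ N → ∑ l ∈ Finset.Ico j i, s l ≤ σ * ((i : ℝ) - j)) ∧
    ∀ i ≤ j, ∑ l ∈ Finset.Ico i j, s l ≤ σ * ((j : ℝ) - i)

/-- **SUB** (uses nothing).  Subadditivity: an iterate `g = F^m` with almost constant maximal growth.
PROOF.  `a n = log (⨆ z, ‖fderiv (F^[n]) z‖)` (the derivative is periodic and continuous, so bounded; it is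
nonzero because the determinant of `fderiv (F^[n]) z` is `1`) is subadditive (chain rule). By Fekete
(`Subadditive.tendsto_lim`, `Subadditive.lim_le_div`) `a n / n → L ≤ a n / n` (for the lower bound of `a n / n`
use `a n ≥ - log 2`: determinant `1`). If `L ≤ 0` then `a n ≤ ε n` for
all large `n`, so `Sub F`. Hence `L > 0`. Take `δ = η L / 2`, `m ≥ 1` with `a m ≤ (L + δ) m`,
`L m ≥ D0`, `δ m ≥ 2 log 2` and put `A = L m`, `D = a m + log 2`. The last claim: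
`A N = L m N ≤ a (m N)`, and the maximum is attained (continuous periodic function), `(F^[m])^[N] = F^[m * N]`
(`Function.iterate_mul`). -/
def SubStmt : Prop :=
  ∀ F : E → E, Cs F → ¬ Sub F → ∀ η D0 : ℝ, 0 < η → ∃ (m : ℕ) (A D : ℝ), 1 ≤ m ∧ D0 ≤ A ∧
    D - A ≤ η * A ∧ (∀ z, ‖fderiv ℝ (F^[m]) z‖ ≤ Real.exp D / 2) ∧
      ∀ N : ℕ, ∃ z, Real.exp (A * N) ≤ ‖fderiv ℝ ((F^[m])^[N]) z‖

/-- **SGM** (uses nothing).  The two fields of directions along an orbit.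
PROOF.  Let `M = fderiv (g^[N]) z = ((a, b), (c, d))`, `det M = 1`. `‖M‖ ≤ 2 max (|a|, |b|, |c|, |d|)`, so there is a basis vector
`v` (`(1,0)` or `(0,1)`) with `‖M v‖ ≥ ‖M‖ / 2`; the inverse of `M` has the same entries up to sign and
order, so there are a basis vector `u` and `w = M⁻¹ u` with `M w = u`, `‖w‖ ≥ ‖M‖ / 2`. Put
`x i = g^[i] z`, `v i = fderiv (g^[i]) z v`, `w i = fderiv (g^[i]) z w`, `e i = v i / ‖v i‖`, `f i = w i / ‖w i‖`,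
`α i = ‖v (i+1)‖ / ‖v i‖`, `β i = ‖w (i+1)‖ / ‖w i‖` (nothing vanishes, determinant `1`). `α i ≤ ‖fderiv g‖ ≤ e^D`;
`β i ≥ e^(-D)`, because the inverse of a map `B` with determinant `1` has norm at most `2 ‖B‖`. `∑ log α i =
log ‖M v‖ ≥ A N - log 2`, `∑ log β i = log (‖u‖ / ‖w‖) ≤ - A N + log 2`. `cr (v N) (w N) = cr v w` (`cr_map`) is not
zero: otherwise `w = t v`, so `‖M v‖ / ‖v‖ = ‖M w‖ / ‖w‖`, i.e. `e^(A N) / 2 ≤ 2 e^(- A N)`, impossible for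
`A N ≥ 1`. -/
def SgmStmt : Prop :=
  ∀ (g : E → E) (A D : ℝ) (N : ℕ) (z : E), Cs g → (∀ z, ‖fderiv ℝ g z‖ ≤ Real.exp D / 2) → 1 ≤ A →
    1 ≤ N → Real.exp (A * N) ≤ ‖fderiv ℝ (g^[N]) z‖ →
    ∃ (x e f : ℕ → E) (α β : ℕ → ℝ), Sg g D N x e f α β ∧
      ∑ i ∈ Finset.range N, df D α β i ≤ 2 * (D - A) * N + 4

/-- **PLI** (uses nothing).  Pliss lemma: at least half of the times are good.
PROOF.  Call `j < N` forward bad if `∑ l ∈ Ico j i, s l > σ (i - j)` for some `i`, `j < i ≤ N`. By strong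
induction on `N - a`: `σ · #{forward bad j ∈ [a, N)} ≤ ∑ l ∈ Ico a N, s l` (if `a` is not bad go to `a + 1`; if `a` is bad
with `i`, then `σ (i - a) ≤ ∑ l ∈ Ico a i, s l`, and go to `i`). So at most `N / 4` times are forward bad. In the same way
(induction from the right, or the reversed sequence) at most `N / 4` times are backward bad. -/
def PliStmt : Prop :=
  ∀ (s : ℕ → ℝ) (σ : ℝ) (N : ℕ), 0 < σ → (∀ i < N, 0 ≤ s i) →
    ∑ i ∈ Finset.range N, s i ≤ σ * N / 4 →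
    ∃ T : Finset ℕ, N ≤ 2 * T.card ∧ ∀ j ∈ T, j < N ∧ Gt s σ N j

/-- **PIG** (uses nothing).  Pigeonhole principle.
PROOF.  The points `(x i - integer part, e i, f i)` lie in the compact set `[0,1]^2 × {‖·‖ ≤ 1} × {‖·‖ ≤ 1}` of
`E × E × E` (sup norm), which is covered by finitely many, say `K`, balls of radius `ρ / 2`; `M = K + 1`
(`Finset.exists_ne_map_eq_of_card_lt_of_maps_to`). -/
def PigStmt : Prop :=
  ∀ ρ : ℝ, 0 < ρ → ∃ M : ℕ, ∀ (T : Finset ℕ) (x e f : ℕ → E), M ≤ T.card →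
    (∀ i ∈ T, ‖e i‖ = 1 ∧ ‖f i‖ = 1) →
    ∃ j ∈ T, ∃ j' ∈ T, j < j' ∧ (∃ a b : ℤ, ‖x j' - x j - iv a b‖ ≤ ρ) ∧
      ‖e j' - e j‖ ≤ ρ ∧ ‖f j' - f j‖ ≤ ρ

/-- **ANG** (uses nothing).  Angles and defects.
PROOF.  Let `B = fderiv g (x i)`, `det B = 1`. (1) `cr (B e) (B f) = cr e f` (`cr_map`), so
`an (i+1) = an i + log α i + log β i`, and `|log α i + log β i| ≤ df i`, because `D - log α i ≥ 0`,
`log β i + D ≥ 0` and `df i` is their sum. (2) `e i = t • f i + r` with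
`t = ip (e i) (f i) / ip (f i) (f i)`, `r = (cr (f i) (e i) / ip (f i) (f i)) • (-(f i).2, (f i).1)`; `ip (f i) (f i) ≥ 1`
(sup norm `1`), so `|t| ≤ 2`, `‖r‖ ≤ |cr (e i) (f i)|`. Hence `α i = ‖B (e i)‖ ≤ 2 β i + |cr (e i) (f i)| e^D / 2`. If `s = df i ≤ D/2`, then
`log α i ≥ D - s`, `log β i ≤ s - D`, so `|cr| ≥ 2 e^(-s) - 4 e^(s - 2 D) ≥ e^(-s)` for `D ≥ 2`
(`4 e^(2 s - 2 D) ≤ 4 e^(-D) ≤ 1`). -/
def AngStmt : Prop :=
  ∀ (g : E → E) (D : ℝ) (N : ℕ) (x e f : ℕ → E) (α β : ℕ → ℝ), Cs g →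
    (∀ z, ‖fderiv ℝ g z‖ ≤ Real.exp D / 2) → 2 ≤ D → Sg g D N x e f α β →
    (∀ i < N, 0 ≤ df D α β i) ∧ (∀ i < N, df D α β i ≤ D / 2 → an e f i ≤ df D α β i + 1) ∧
      (∀ i < N, |an e f (i + 1) - an e f i| ≤ df D α β i)

/-- **BOX** (uses nothing; pure sequences).  The sizes of the boxes. `S i l = ∑ k ∈ Ico i l, s k`, `σ = D/100`, `τ = D/50`.
PROOF.  For `0 ≤ i ≤ n` let `b i = max_(l ≤ i) (S l i - τ (i - l))`, `b' i = max_(i ≤ l ≤ n) (S i l - τ (l - i))`,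
`c i = max (b i) (b' i)`, `h i = (b' i - b i) / 2`. (`l = i` gives `b, b' ≥ 0`.) `b (i+1) ≥ b i + s i - τ`,
`b' i ≥ b' (i+1) + s i - τ`, so `h (i+1) - h i ≤ τ - s i`; `|h i| ≤ c i / 2`. By the two mean
conditions `b i ≤ S 0 i ≤ σ i`, `b' i ≤ max_l (S 0 l - τ (l - i)) ≤ σ i` and in the same way `b i, b' i ≤ σ (n - i)`: so
`c i ≤ σ i`, `c i ≤ σ (n - i)`, in particular `h 0 = h n = 0`. Let
`F i = f0 + max_(l ≤ n) (8 c l - (D/4) |i - l|)`. Then `|F (i+1) - F i| ≤ D/4`, `F i ≥ f0 + 8 c i`, and `F 0 = F n = f0` since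
`8 c l ≤ 8 σ l ≤ (D/4) l`, `8 c l ≤ (D/4) (n - l)`. Put `R = - F + h`, `T = - F - h`. `R (i+1) - R i ≤ D/4 + τ - s i ≤ D/2 - s i`,
`T (i+1) - T i ≥ - D/4 - τ + s i`. ANGLES: `θ i ≤ 2 c i + D/2 + 1` for all `i ≤ n`: let `i' ≥ i` be the first index with
`i' = n` or `s i' ≤ D/2`; `θ i ≤ θ i' + S i i' ≤ D/2 + 1 + S i i'`, `S i i' ≥ (D/2) (i' - i)`, `c i ≥ S i i' - τ (i' - i)
≥ S i i' / 2`. Finally `2 max (R i, T i) ≤ - 2 F i + c i`, `min (R (i+1), T (i+1)) ≥ - F i - D/4 - c (i+1) / 2`, and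
`F i ≥ f0 + 4 c i + 4 c (i+1) - D/8` (mean of `F i ≥ f0 + 8 c i` and `F i ≥ F (i+1) - D/4 ≥ f0 + 8 c (i+1) - D/4`), so
the last four inequalities follow from `9 D / 8 ≥ 1`. -/
def BoxStmt : Prop :=
  ∀ (D : ℝ) (n : ℕ) (s θ : ℕ → ℝ), 1 ≤ D → (∀ i < n, 0 ≤ s i) →
    (∀ i ≤ n, ∑ l ∈ Finset.Ico 0 i, s l ≤ D / 100 * i) →
    (∀ i ≤ n, ∑ l ∈ Finset.Ico i n, s l ≤ D / 100 * ((n : ℝ) - i)) →
    (∀ i < n, s i ≤ D / 2 → θ i ≤ s i + 1) → (∀ i < n, θ i ≤ θ (i + 1) + s i) →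
    θ n ≤ D / 2 + 1 → ∀ f0 : ℝ, ∃ R T : ℕ → ℝ, R 0 = -f0 ∧ T 0 = -f0 ∧ R n = -f0 ∧ T n = -f0 ∧
      (∀ i ≤ n, R i ≤ -f0 ∧ T i ≤ -f0) ∧
      ∀ i < n, R (i + 1) ≤ R i + D / 2 - s i ∧ T i - D / 2 + s i ≤ T (i + 1) ∧
        2 * R i ≤ R (i + 1) - θ (i + 1) - (f0 - 2 * D) ∧
        2 * R i ≤ T (i + 1) - θ (i + 1) - (f0 - 2 * D) ∧
        2 * T i ≤ R (i + 1) - θ (i + 1) - (f0 - 2 * D) ∧
        2 * T i ≤ T (i + 1) - θ (i + 1) - (f0 - 2 * D)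

/-- **CHN** (uses nothing).  A cyclic chain of crossing boxes has a fixed point.
PROOF.  Poincaré-Miranda (`Pool.Agent.Helper53_TrInd.miranda`, file `Pool/Agent/Helper53_TrInd/Miranda.lean`, any finite
index type; unit cube) with index set `Fin n × Fin 2`, box `p i = (r i (2 u (i,0) - 1), t i (2 u (i,1) - 1))`. The component
`(i, 0)` of the map is `(Φ i (p i)).1 - (p (i+1)).1` for `i + 1 < n` and `(Φ i (p i)).1 - (Θ (p 0)).1` for `i + 1 = n`: it is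
`≤ 0` for `u (i,0) = 0` and `≥ 0` for `u (i,0) = 1`. The component `(i, 1)` is `(p i).2 - (Φ (i-1) (p (i-1))).2` for `i ≥ 1` and
`(Θ (p 0)).2 - (Φ (n-1) (p (n-1))).2` for `i = 0`: it is `≤ 0` for `u (i,1) = 0` and `≥ 0` for `u (i,1) = 1`. -/
def ChnStmt : Prop :=
  ∀ (n : ℕ) (r t : ℕ → ℝ) (Φ : ℕ → ℝ × ℝ → ℝ × ℝ) (Θ : ℝ × ℝ → ℝ × ℝ), 1 ≤ n →
    (∀ i < n, 0 < r i ∧ 0 < t i) → (∀ i < n, Continuous (Φ i)) → Continuous Θ →
    (∀ i < n, ∀ p : ℝ × ℝ, |p.1| ≤ r i → |p.2| ≤ t i →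
      (p.1 = r i → r (i + 1) ≤ (Φ i p).1) ∧ (p.1 = -r i → (Φ i p).1 ≤ -r (i + 1)) ∧
        |(Φ i p).2| ≤ t (i + 1)) →
    (∀ p : ℝ × ℝ, |p.1| ≤ r 0 → |p.2| ≤ t 0 → |(Θ p).1| ≤ r n ∧
      (p.2 = t 0 → t n ≤ (Θ p).2) ∧ (p.2 = -t 0 → (Θ p).2 ≤ -t n)) →
    ∃ p : ℕ → ℝ × ℝ, (∀ i < n, |(p i).1| ≤ r i ∧ |(p i).2| ≤ t i) ∧
      (∀ i, i + 1 < n → Φ i (p i) = p (i + 1)) ∧ Φ (n - 1) (p (n - 1)) = Θ (p 0)

/-- **CRO** (uses nothing).  One step in the adapted coordinates.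
PROOF.  `g (x + ξ e + η f) - g x = ξ α e' + η β f' + R`, `‖R‖ ≤ C0 (|ξ| + |η|)^2`; `cr (·) f'` and `cr e' (·)`,
`|cr R f'| ≤ 2 ‖R‖` (`abs_cr_le`). -/
def CroStmt : Prop :=
  ∀ (g : E → E) (C0 : ℝ) (x e f e' f' : E) (α β ξ η : ℝ),
    (∀ z h, ‖g (z + h) - g z - fderiv ℝ g z h‖ ≤ C0 * ‖h‖ ^ 2) → ‖e‖ = 1 → ‖f‖ = 1 → ‖e'‖ = 1 →
    ‖f'‖ = 1 → fderiv ℝ g x e = α • e' → fderiv ℝ g x f = β • f' → cr e' f' ≠ 0 →
    |cr (g (x + (ξ • e + η • f)) - g x) f' / cr e' f' - α * ξ| ≤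
        2 * C0 * (|ξ| + |η|) ^ 2 / |cr e' f'| ∧
      |cr e' (g (x + (ξ • e + η • f)) - g x) / cr e' f' - β * η| ≤
        2 * C0 * (|ξ| + |η|) ^ 2 / |cr e' f'|

/-- **QDR** (uses nothing).  Second order Taylor bound with a global constant.
PROOF.  The second derivative of `g` is continuous and periodic, so bounded by some `C`;
`‖fderiv g (z + t h) - fderiv g z‖ ≤ C ‖h‖`, mean value inequality (`Convex.norm_image_sub_le_of_norm_hasFDerivWithin_le'`). -/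
def QdrStmt : Prop :=
  ∀ g : E → E, ContDiff ℝ ∞ g → Eqv g →
    ∃ C0 : ℝ, 0 < C0 ∧ ∀ z h, ‖g (z + h) - g z - fderiv ℝ g z h‖ ≤ C0 * ‖h‖ ^ 2

/-- **CLS** (uses ANG, BOX, CHN, CRO, QDR).  The closing lemma.
PROOF.  `C0` from QDR. Choose `f0 ≥ 0` with `16 C0 e^(2 D - f0) ≤ 1`, `c = e^(-f0) ≤ 1`, and `ρ ≤ 1` with `6 ρ e^(D/2 + 1) ≤ c/4`. Let
`n = j' - j`, `s l = df (j + l)`, `θ l = an (j + l)`: hypotheses of BOX from ANG and the two good times (`s j' ≤ D/100`: forward mean of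
length one at `j'`, so `θ n ≤ D/100 + 1`). Get `R`, `T`; `r i = e^(R i)`, `t i = e^(T i)` for `i < n`, and `r n = 2 c`, `t n = c / 2` (for CHN).
Coordinates at `i`: the point `x (j+i) + ξ e (j+i) + η f (j+i)`;
`Φ i (ξ, η) = (cr (g (..) - x (j+i+1)) f' / cr e' f', cr e' (g (..) - x (j+i+1)) / cr e' f')`, `e' = e (j+i+1)`, `f' = f (j+i+1)`.
By CRO `|Φ.1 - α ξ|, |Φ.2 - β η| ≤ 2 C0 (r + t)^2 / |cr e' f'| ≤ 8 C0 e^(2 max (R, T) + θ (i+1))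
≤ 8 C0 e^(2 D - f0) min (e^(R (i+1)), e^(T (i+1))) ≤ min (..) / 2`. `α ≥ e^(D - s)`, `β ≤ e^(s - D)` (from `aD`, `bD`), so
`α r i ≥ e^(D/2) e^(R (i+1)) ≥ 3 e^(R (i+1))` (`D ≥ 4`), `β t i ≤ e^(-D/2) e^(T (i+1))`: for `ξ = ± r i` the first
coordinate is beyond `± 2 e^(R (i+1))`, and the second is at most `e^(T (i+1)) (e^(-2) + 1/2)`. (For the last step, `i + 1 = n`, one needs
`≤ t n = c/2`: use `16 C0` replaced by a larger constant, e.g. `64 C0 e^(2 D - f0) ≤ 1`, so that the error is at most `min / 8`.)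
`Θ (ξ, η)` = coordinates at `j'` of `x j + ξ e j + η f j + p`, `p = iv a b`: minus
`(ξ, η)` it is the coordinates of `(x j + p - x j') + ξ (e j - e j') + η (f j - f j')`, which are at most
`2 · 3 ρ / |cr (e j') (f j')| ≤ 6 ρ e^(θ n) ≤ c/4`. CHN gives `p i`; `y = x j + ξ 0 e j + η 0 f j` satisfies
`g^[n] y = y + iv a b` (a vector `u` is determined by `cr u f'`, `cr e' u`). -/
def ClsStmt : Prop :=
  ∀ (g : E → E) (D : ℝ), Cs g → (∀ z, ‖fderiv ℝ g z‖ ≤ Real.exp D / 2) → 4 ≤ D →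
    ∃ ρ : ℝ, 0 < ρ ∧ ∀ (N : ℕ) (x e f : ℕ → E) (α β : ℕ → ℝ), Sg g D N x e f α β →
      ∀ j j' : ℕ, j < j' → j' < N → Gt (df D α β) (D / 100) N j → Gt (df D α β) (D / 100) N j' →
      ∀ a b : ℤ, ‖x j' - x j - iv a b‖ ≤ ρ → ‖e j' - e j‖ ≤ ρ → ‖f j' - f j‖ ≤ ρ →
      ∃ y, g^[j' - j] y = y + iv a b

/-- **KAT** (uses SUB, SGM, PLI, PIG, ANG, CLS).  No periodic points, so subexponential growth.
PROOF.  If not `Sub F`: SUB with `η = 1/2000`, `D0 = 10` gives `m`, `A`, `D` (`A ≤ D` because `e^A ≤ e^D / 2` by `N = 1`), `g = F^[m]`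
(`Cs g`: iterates, `F^[m]` commutes with the integer translations, determinant `1` by the chain rule).
CLS gives `ρ`, PIG gives `M`. Let `N ≥ 2 M`, `N ≥ 8000`, `N ≥ 1`. SUB, SGM: a segment with
`∑ df ≤ 2 (D - A) N + 4 ≤ A N / 1000 + 4 ≤ (D/100) N / 4`. PLI gives `T` with `N ≤ 2 card T`, PIG gives `j < j'` in `T`, CLS a point `y` with
`g^[j' - j] y = y + iv a b`, i.e. `F^[m (j' - j)] y = y + iv a b`: contradiction to `NoPer`. -/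
def KatStmt : Prop := ∀ F : E → E, Cs F → NoPer F → Sub F

/-- **NPR** (uses nothing).  Bounded mean motion with irrational rotation vector: no periodic points.
PROOF.  `F^[q] z = z + p` gives `F^[q n] z = z + n p`, so `n ‖q w - p‖ ≤ C` for all `n` and `q w = p`. -/
def NprStmt : Prop :=
  ∀ (F : E → E) (w : E) (C : ℝ), Eqv F → (∀ (n : ℕ) (z : E), ‖F^[n] z - z - (n : ℝ) • w‖ ≤ C) →
    (∀ (q : ℕ) (a b : ℤ), 1 ≤ q → (q : ℝ) • w ≠ iv a b) → NoPer F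

/-- **EXL** (uses nothing).  Exponentially Liouville vectors and subexponential growth: the growth condition.
PROOF.  Given `N`: `ε = c / (4 (N + 1))`, `C ≥ 1` from `Sub F`. For `m ≤ q`: `‖fderiv (F^[m]) z‖ ≤ C e^(ε q) =: L`.
`q + L ≤ 2 C (1 + 1/ε) e^(ε q)` and `(q + L)^N e^(-c q) ≤ (2 C (1 + 1/ε))^N e^(-(3/4) c q) ≤ 1` for `q` large. -/
def ExlStmt : Prop :=
  ∀ (F : E → E) (w : E) (c : ℝ), Sub F → 0 < c →
    (∀ Q : ℕ, ∃ (q : ℕ) (a b : ℤ), Q ≤ q ∧ ‖(q : ℝ) • w - iv a b‖ ≤ Real.exp (-c * q)) →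
    ∀ N : ℕ, ∃ (q : ℕ) (a b : ℤ) (L : ℝ), 1 ≤ q ∧ (∀ m ≤ q, ∀ z, ‖fderiv ℝ (F^[m]) z‖ ≤ L) ∧
      ‖(q : ℝ) • w - iv a b‖ * (q + L) ^ N ≤ 1

end Pool.Agent.KTK
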