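import Pool.Agent.KTK.Stmts

/-!
# KTK, part 2 (MP_b2962a_an): the quantitative Katok step and non-Brjuno rotation vectors

Every statement has its complete proof in its docstring.
-/

set_option autoImplicit false

namespace Pool.Agent.KTK

open Pool.Agent.PRT
open scoped ContDiff

/-- the logarithm of the maximum of `‖D F^n‖` -/
noncomputable def mg (F : E → E) (n : ℕ) : ℝ := Real.log (⨆ z, ‖fderiv ℝ (F^[n]) z‖)

/-- the maximum of `mg F m`, `m ≤ n` -/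
noncomputable def bg (F : E → E) (n : ℕ) : ℝ :=
  (Finset.range (n + 1)).sup' ⟨0, Finset.mem_range.2 (Nat.succ_pos n)⟩ (mg F)

/-- the distance to the nearest integer vector (sup norm) -/
noncomputable def nd (v : E) : ℝ := ‖v - iv (round v.1) (round v.2)‖

/-- the minimum of `nd (q w)`, `1 ≤ q ≤ 2^n` -/
noncomputable def dl (w : E) (n : ℕ) : ℝ :=
  (Finset.Icc 1 (2 ^ n)).inf' ⟨1, Finset.mem_Icc.2 ⟨le_rfl, Nat.one_le_two_pow⟩⟩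
    fun q => nd ((q : ℝ) • w)

/-- `w` is not a (simultaneous) Brjuno vector -/
def NBr (w : E) : Prop := ¬ Summable fun n : ℕ => -Real.log (dl w n) / 2 ^ n

/-- the best denominators `q` with `nd (q w) ≤ exp (- sqrt q)` -/
def Bst (w : E) (q : ℕ) : Prop :=
  1 ≤ q ∧ (∀ j : ℕ, 1 ≤ j → j < q → nd ((q : ℝ) • w) < nd ((j : ℝ) • w)) ∧
    Real.sqrt q ≤ -Real.log (nd ((q : ℝ) • w))

/-- **MXA** (uses nothing).  The sequence `mg`.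
PROOF.  `fderiv (F^[n])` is continuous and periodic, so its norm is bounded and the maximum is attained (compact unit
square); the determinant of `fderiv (F^[n]) z` is `1`, so its norm is at least `1` (`1 = a d - b c ≤ (|a| + |b|) (|c| + |d|) ≤
‖M‖^2` in the sup norm), so the supremum is `≥ 1 > 0`, `exp (log _) = _`; chain rule. -/
def MxaStmt : Prop :=
  ∀ F : E → E, Cs F → (∀ (n : ℕ) (z : E), ‖fderiv ℝ (F^[n]) z‖ ≤ Real.exp (mg F n)) ∧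
    (∀ n : ℕ, ∃ z, ‖fderiv ℝ (F^[n]) z‖ = Real.exp (mg F n)) ∧ (∀ n, 0 ≤ mg F n) ∧
      ∀ m n : ℕ, mg F (m + n) ≤ mg F m + mg F n

/-- **MXB** (uses MXA).  The sequence `bg`.
PROOF.  `Finset.sup'_mono`, `Finset.le_sup'`; for `l ≤ m + n` write `l = l1 + l2`, `l1 ≤ m`, `l2 ≤ n`. -/
def MxbStmt : Prop :=
  ∀ F : E → E, Cs F → Monotone (bg F) ∧ (∀ n, 0 ≤ bg F n) ∧
    (∀ m n : ℕ, bg F (m + n) ≤ bg F m + bg F n) ∧ (∀ m n : ℕ, m ≤ n → mg F m ≤ bg F n) ∧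
      ∀ (m n : ℕ) (z : E), m ≤ n → ‖fderiv ℝ (F^[m]) z‖ ≤ Real.exp (bg F n)

/-- **QD2** (uses QDR).  Exponential bound for the second order constants of the iterates.
PROOF.  Let `K ≥ 1` bound `‖fderiv F‖` and the constant of QDR for `F`. With `y = F^[m] z`, `k = F^[m] (z + h) - y`,
`‖k‖ ≤ K^m ‖h‖` (mean value inequality): the error of `F^[m+1]` is (error of `F` at `y`, `k`) + `DF(y)` (error of `F^[m]`), so
`C_(m+1) ≤ K K^(2m) + K C_m` and by induction `C_m ≤ m K^(2m) ≤ exp (C m)`, `C = 1 + 2 log K`. -/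
def Qd2Stmt : Prop :=
  ∀ F : E → E, Cs F → ∃ C : ℝ, 1 ≤ C ∧ ∀ m : ℕ, 1 ≤ m → ∃ C0 : ℝ, 0 < C0 ∧
    C0 ≤ Real.exp (C * m) ∧
      ∀ z h, ‖F^[m] (z + h) - F^[m] z - fderiv ℝ (F^[m]) z h‖ ≤ C0 * ‖h‖ ^ 2

/-- **PG2** (uses nothing).  Pigeonhole principle with a bound.
PROOF.  `K = 1025`. Map `i` to `(⌊fract (x i).1 / ρ⌋, ⌊fract (x i).2 / ρ⌋, ⌊(e i).1 / ρ⌋, .., ⌊(f i).2 / ρ⌋)` in `ℤ^6`: the first two
entries are in `[0, ⌊1/ρ⌋]`, the other four in `[⌊-1/ρ⌋, ⌊1/ρ⌋]`, so there are at most `(1/ρ + 1)^2 (2/ρ + 2)^4 ≤ 1024 / ρ^6`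
values (`ρ ≤ 1`). Two indices with the same value satisfy the conclusion (`|u - v| < ρ` if `⌊u/ρ⌋ = ⌊v/ρ⌋`). -/
def Pg2Stmt : Prop :=
  ∃ K : ℝ, 0 < K ∧ ∀ (ρ : ℝ) (T : Finset ℕ) (x e f : ℕ → E), 0 < ρ → ρ ≤ 1 →
    K / ρ ^ 6 ≤ T.card → (∀ i ∈ T, ‖e i‖ = 1 ∧ ‖f i‖ = 1) →
    ∃ j ∈ T, ∃ j' ∈ T, j < j' ∧ (∃ a b : ℤ, ‖x j' - x j - iv a b‖ ≤ ρ) ∧
      ‖e j' - e j‖ ≤ ρ ∧ ‖f j' - f j‖ ≤ ρ

/-- **CL2** (uses ANG, BOX, CHN, CRO).  The closing lemma with explicit `ρ`.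
PROOF.  The proof of CLS with `c = min 1 (e^(-2D) / (64 C0)) = e^(-f0)`: `64 C0 e^(2D) c ≤ 1`, `c ≤ 1`, and
`c ≥ 1 / (64 (1 + C0) e^(2D))`, so `24 ρ e^(D/2+1) ≤ c` follows from `5000 (1 + C0) e^(3D) ρ ≤ 1`
(`64 * 24 * e ≤ 5000`). -/
def Cl2Stmt : Prop :=
  ∀ (g : E → E) (D C0 ρ : ℝ), Cs g → (∀ z, ‖fderiv ℝ g z‖ ≤ Real.exp D / 2) → 4 ≤ D → 0 < C0 →
    (∀ z h, ‖g (z + h) - g z - fderiv ℝ g z h‖ ≤ C0 * ‖h‖ ^ 2) → 0 < ρ →
    5000 * (1 + C0) * Real.exp (3 * D) * ρ ≤ 1 →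
    ∀ (N : ℕ) (x e f : ℕ → E) (α β : ℕ → ℝ), Sg g D N x e f α β →
      ∀ j j' : ℕ, j < j' → j' < N → Gt (df D α β) (D / 100) N j → Gt (df D α β) (D / 100) N j' →
      ∀ a b : ℤ, ‖x j' - x j - iv a b‖ ≤ ρ → ‖e j' - e j‖ ≤ ρ → ‖f j' - f j‖ ≤ ρ →
      ∃ y, g^[j' - j] y = y + iv a b

/-- **QKA** (uses MXA, SGM, PLI, PG2, QD2, ANG, CL2).  The quantitative Katok step.
PROOF.  Write `a n = mg F n`, `η = 1/2000`. Suppose `a n / n > (1 - η) a m / m + C / m`, `n ≥ e^(C m)`, `C` large. `n = N m + r`, `r < m`,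
`N ≥ m`, `N ≥ e^(C m) / m - 1`. `a n ≤ a (N m) + a r ≤ a (N m) + m (a 1)` (subadditivity, `a r ≤ r a 1`), so
`a (N m) ≥ n ((1 - η) a m / m + C / m) - m (a 1) ≥ N ((1 - η) a m + C - a 1) =: N A` (`m ≤ N`). Let `g = F^[m]` (`Cs g`), `D = a m + log 2`:
`‖fderiv g‖ ≤ e^D / 2`, and `e^(A N) ≤ ‖fderiv (g^[N]) z‖` for some `z` (`g^[N] = F^[m N]`). `C ≥ a 1 + 4 + log 2`: `A ≥ 4`,
`D - A = η a m + log 2 + a 1 - C ≤ η D`; `A ≤ D`, since `a (N m) ≤ N a m`; so `D ≥ 4`. SGM: a segment with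
`∑ df ≤ 2 (D - A) N + 4 ≤ D N / 1000 + 4 ≤ (D / 100) N / 4` (`N ≥ 700`, `D ≥ 4`); `df ≥ 0` by ANG. PLI (`σ = D / 100`): `T`, `N ≤ 2 card T`.
`C0 ≤ e^(C2 m)` from QD2, `D ≤ m (a 1) + 1`: `ρ = 1 / (5000 (1 + C0) e^(3 D)) ≥ e^(- C3 m)`, `K / ρ^6 ≤ e^(C4 m) ≤ N / 2 ≤ card T` for `C`
large. PG2 and CL2: `g^[j' - j] y = y + p`, i.e. `F^[m (j' - j)] y = y + p`, contradiction to `NoPer`. -/
def QkaStmt : Prop :=
  ∀ F : E → E, Cs F → NoPer F → ∃ C : ℝ, 1 ≤ C ∧ ∀ m n : ℕ, 1 ≤ m → Real.exp (C * m) ≤ n →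
    mg F n / n ≤ (1 - 1 / 2000) * (mg F m / m) + C / m

/-- **QKB** (uses MXA, MXB, QKA).  The same for `bg`.
PROOF.  `C'` from QKA, `C = C' + 1 + mg F 1`. `bg F n` is some `mg F l`, `l ≤ n`. If `l ≥ e^(C' m)`:
`mg F l ≤ l ((1 - η) mg F m / m + C' / m) ≤ n ((1 - η) bg F m / m + C / m)`. If `l < e^(C' m)`: `mg F l ≤ l mg F 1 ≤
e^(C' m) mg F 1 ≤ (C / m) e^(C m)`, because `m ≤ e^m` and `mg F 1 ≤ C` (and `mg F l ≤ 0` for `l = 0`: `F^[0] = id`; or use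
subadditivity `mg F l ≤ l mg F 1 + mg F 0`, `mg F 0 = 0`). -/
def QkbStmt : Prop :=
  ∀ F : E → E, Cs F → NoPer F → ∃ C : ℝ, 1 ≤ C ∧ ∀ m n : ℕ, 1 ≤ m → Real.exp (C * m) ≤ n →
    bg F n / n ≤ (1 - 1 / 2000) * (bg F m / m) + C / m

/-- **SMB** (uses nothing; pure sequences).
PROOF.  `m j = Nat.sqrt (Nat.sqrt (B j))`, so `(m j)^4 ≤ B j < (m j + 1)^4`. `B` is strictly increasing, so `m j → ∞`, and for `j ≥ j0`:
`m (j+1) + 1 ≥ (B (j+1))^(1/4) ≥ (exp (sqrt (B j)) / 2)^(1/4) ≥ exp (C * m j) + 1` and `≥ 2 m j + 1`, since `sqrt (B j) ≥ (m j)^2`. Hence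
`k j = b (m j) / m j` satisfies `k (j+1) ≤ (1 - η) k j + C / m j` for `j ≥ j0`, and `m (j+1) ≥ 2 m j`, so `∑ C / m j`
converges and `∑ k j` converges (partial sums: `η ∑ k j ≤ k j0 + ∑ C / m j`). Finally `B j = u (m j) + v`, `v < m j`: `b (B j) ≤ (u + 1) b (m j)`
and `b (B j) / B j ≤ (1 / m j + 1 / B j) b (m j) ≤ 2 k j`. -/
def SmbStmt : Prop :=
  ∀ (b : ℕ → ℝ) (η C : ℝ), Monotone b → (∀ n, 0 ≤ b n) → (∀ m n : ℕ, b (m + n) ≤ b m + b n) →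
    0 < η → η < 1 → 0 ≤ C →
    (∀ m n : ℕ, 1 ≤ m → Real.exp (C * m) ≤ n → b n / n ≤ (1 - η) * (b m / m) + C / m) →
    ∀ B : ℕ → ℕ, StrictMono B → (∀ j, 1 ≤ B j) →
      (∀ j, Real.exp (Real.sqrt (B j)) / 2 ≤ B (j + 1)) → Summable fun j => b (B j) / B j

/-- **GRW** (uses nothing; pure sequences).
PROOF.  `log (2 x) / x ≤ 4 / sqrt x` (`log y ≤ 2 sqrt y` for `y > 0`), and `exp (sqrt x) / 2 ≥ 4 x` for `x ≥ x0`, so from some `j0` on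
`B (j+1) ≥ 4 B j` and `4 / sqrt (B j)` is dominated by a geometric series. -/
def GrwStmt : Prop :=
  ∀ B : ℕ → ℕ, StrictMono B → (∀ j, 1 ≤ B j) →
    (∀ j, Real.exp (Real.sqrt (B j)) / 2 ≤ B (j + 1)) →
      Summable fun j => Real.log (2 * B j) / B j

/-- **NDL** (uses nothing).  `nd` is the distance to the integer vectors.
PROOF.  `round_le`: `|x - round x| ≤ |x - z|`, `|x - round x| ≤ 1/2` (`abs_sub_round`), coordinate by coordinate. -/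
def NdlStmt : Prop :=
  ∀ v : E, (∀ a b : ℤ, nd v ≤ ‖v - iv a b‖) ∧ nd v ≤ 1 / 2 ∧ 0 ≤ nd v

/-- **GAP** (uses nothing).  Gaps between best denominators.
PROOF.  Let `p`, `p'` be the integer vectors nearest to `q w`, `q' w`. If `q p' = q' p` then `q' w - p' = (q'/q) (q w - p)` and
`nd (q' w) = (q'/q) nd (q w) ≥ nd (q w)`, excluded. So the integer vector `q p' - q' p = q' (q w - p) - q (q' w - p')` has norm at least `1`,
and at most `q' nd (q w) + q nd (q' w) ≤ 2 q' nd (q w)`. -/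
def GapStmt : Prop :=
  ∀ (w : E) (q q' : ℕ), 1 ≤ q → q < q' → nd ((q' : ℝ) • w) < nd ((q : ℝ) • w) →
    1 ≤ 2 * q' * nd ((q : ℝ) • w)

/-- **RDB** (uses NDL).  Reduction to the best denominators.
PROOF.  Let `f q = - log (nd (q w)) / q` on `Bst w`, `0` elsewhere (`≥ 0`, `nd ≤ 1/2`), and suppose `f` summable with sum `S`. For `n`
let `q n` be the smallest minimiser of `nd (q w)`, `1 ≤ q ≤ 2^n`. If `- log (dl w n) ≤ 2^(n/2)` the `n`-th term is at most `2^(-n/2)`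
(real power, or `(sqrt 2)^(-n)`). Otherwise
`- log (nd (q n w)) > 2^(n/2) ≥ sqrt (q n)`, so `Bst w (q n)`. So for every `K` the sum of the terms `n < K` is at most `∑ 2^(-n/2) +
∑_(q ≤ 2^K, Bst w q) (- log (nd (q w))) ∑_(n < K, q ≤ 2^n) 2^(-n) ≤ ∑ 2^(-n/2) + 2 S`, because `∑_(n : q ≤ 2^n) 2^(-n) ≤ 2/q`
(geometric series). The terms are `≥ 0`, so they are summable (`summable_of_sum_range_le`), contradiction. -/
def RdbStmt : Prop :=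
  ∀ w : E, (∀ q : ℕ, 1 ≤ q → 0 < nd ((q : ℝ) • w)) → NBr w →
    ¬ Summable (Set.indicator {q : ℕ | Bst w q} fun q => -Real.log (nd ((q : ℝ) • w)) / q)

/-- **ENM** (uses nothing).  Enumeration of the best denominators.
PROOF.  The set is infinite (a function with finite support is summable); `Nat.nth` (or `Nat.orderEmbeddingOfSet`) enumerates
it, and `Function.Injective.summable_iff`. -/
def EnmStmt : Prop :=
  ∀ (P : ℕ → Prop) (f : ℕ → ℝ), ¬ Summable (Set.indicator {q : ℕ | P q} f) →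
    ∃ B : ℕ → ℕ, StrictMono B ∧ (∀ j, P (B j)) ∧ ¬ Summable fun j => f (B j)

/-- **NBF** (uses MXA, MXB, QKB, SMB, GRW, NDL, GAP, RDB, ENM, NPR).  Non-Brjuno vectors: the growth condition.
PROOF.  `NoPer F` by NPR. `b = bg F`. Suppose that for some `N` there is no such `q`. For `q ≥ 1` take `a, b` = nearest integers of `q w`,
`L = e^(b q)`: `1 < nd (q w) (q + e^(b q))^N`, so `- log (nd (q w)) < N log (q + e^(b q)) ≤ N (b q + log (2 q))`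
(`q + e^b ≤ 2 q e^b`). `nd (q w) > 0` since `q w` is not integral. RDB, ENM: strictly increasing `B` with `Bst w (B j)` and
`- log (nd (B j w)) / B j` not summable. GAP: `B (j+1) ≥ 1 / (2 nd (B j w)) ≥ exp (sqrt (B j)) / 2`. SMB (with QKB, MXB) and GRW:
`N (b (B j) / B j + log (2 B j) / B j)` is summable and dominates the terms, contradiction (`Summable.of_nonneg_of_le`). -/
def NbfStmt : Prop :=
  ∀ (F : E → E) (w : E) (C : ℝ), Cs F → (∀ (n : ℕ) (z : E), ‖F^[n] z - z - (n : ℝ) • w‖ ≤ C) →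
    (∀ (q : ℕ) (a b : ℤ), 1 ≤ q → (q : ℝ) • w ≠ iv a b) → NBr w →
    ∀ N : ℕ, ∃ (q : ℕ) (a b : ℤ) (L : ℝ), 1 ≤ q ∧ (∀ m ≤ q, ∀ z, ‖fderiv ℝ (F^[m]) z‖ ≤ L) ∧
      ‖(q : ℝ) • w - iv a b‖ * (q + L) ^ N ≤ 1

/-- **EXI** (uses NDL).  Exponentially Liouville vectors are not Brjuno vectors.
PROOF.  If `nd (q w) ≤ exp (- c q)`, `q ≥ 1`, let `n` be the smallest number with `q ≤ 2^n`, so `2^n ≤ 2 q`: `- log (dl w n) ≥ c q` and the term is at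
least `c / 2`. For `q → ∞` also `n → ∞`, so the terms do not tend to `0`. (`dl w n > 0`.) -/
def ExiStmt : Prop :=
  ∀ (w : E) (c : ℝ), (∀ q : ℕ, 1 ≤ q → 0 < nd ((q : ℝ) • w)) → 0 < c →
    (∀ Q : ℕ, ∃ (q : ℕ) (a b : ℤ), Q ≤ q ∧ ‖(q : ℝ) • w - iv a b‖ ≤ Real.exp (-c * q)) → NBr w

end Pool.Agent.KTK
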